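import Mathlib
import Pool.Agent.Helper450.Kneser

/-!
# The signed [0,s]-critical number of a cyclic group

For all positive integers `n` and `s` the signed `[0,s]`-critical number of the cyclic group of order
`n` is `v_± (n, s) + 1`. The proof: `[0,s]_± A` is the `s`-fold sumset of `B = A ∪ (-A) ∪ {0}`. If it is
not the whole group, let `H` be its stabiliser and `d = n / |H|`; Kneser's theorem gives
`s (c - 1) ≤ d - 2`, where `c` is the number of the cosets of `H` which meet `B`; and for odd `n` the
number `c` is odd, since the union of these cosets is symmetric and contains `0`.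
-/

set_option autoImplicit false
set_option linter.unusedSectionVars false

open scoped Pointwise
open Finset Pool.Agent.Helper450.Kneser

namespace Pool.Agent.Results.MP_c7e63d_co.SignedCritical

/-- The `h`-fold signed sumset `h_± A`: all sums `∑ λ_a a` over `a ∈ A` with integers `λ_a`,
`∑ |λ_a| = h`. -/
def signedSumset {n : ℕ} (h : ℕ) (A : Finset (ZMod n)) : Set (ZMod n) :=
  {x | ∃ l : ZMod n → ℤ, ∑ a ∈ A, |l a| = (h : ℤ) ∧ ∑ a ∈ A, l a • a = x}

/-- `[0,s]_± A`, the union of the `h`-fold signed sumsets for `0 ≤ h ≤ s`. -/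
def signedInterval {n : ℕ} (s : ℕ) (A : Finset (ZMod n)) : Set (ZMod n) :=
  ⋃ h ∈ Set.Icc 0 s, signedSumset h A

/-- The signed `[0,s]`-critical number of the cyclic group of order `n`: the least `m` such that
`[0,s]_± A` is the whole group for every subset `A` with at least `m` elements. -/
noncomputable def criticalNumber (n s : ℕ) : ℕ :=
  sInf {m : ℕ | ∀ A : Finset (ZMod n), m ≤ A.card → signedInterval s A = Set.univ}

/-- `v_± (n, h)`, the maximum of `(2 ⌊(d - 2) / (2 h)⌋ + 1) * (n / d)` over the positive divisors `d`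
of `n` (an integer; the division `/` of integers by a positive integer is rounded down). -/
def vpm (n h : ℕ) (hn : 0 < n) : ℤ :=
  n.divisors.sup' ⟨1, Nat.one_mem_divisors.mpr hn.ne'⟩
    fun d => (2 * (((d : ℤ) - 2) / (2 * (h : ℤ))) + 1) * ((n / d : ℕ) : ℤ)

section general

variable {G : Type*} [AddCommGroup G] [Fintype G] [DecidableEq G]

/-- iterated sumset -/
def it (B : Finset G) : ℕ → Finset G
  | 0 => {0}
  | k + 1 => it B k + B

lemma it_one (B : Finset G) : it B 1 = B := by
  rw [it, it, Finset.singleton_zero, zero_add]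

lemma it_add (B : Finset G) (i j : ℕ) : it B (i + j) = it B i + it B j := by
  induction j with
  | zero => rw [add_zero, show it B 0 = 0 from Finset.singleton_zero, add_zero]
  | succ j ih => rw [← add_assoc, it, ih, it, add_assoc]

lemma it_nonempty {B : Finset G} (hB : B.Nonempty) (k : ℕ) : (it B k).Nonempty := by
  induction k with
  | zero => exact Finset.singleton_nonempty 0
  | succ k ih => exact ih.add hB

lemma stab_le_stab_add (X Y : Finset G) : stab X ≤ stab (X + Y) := by
  intro g hg
  refine mem_stab_of_forall fun z hz => ?_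
  obtain ⟨x, hx, y, hy, rfl⟩ := Finset.mem_add.mp hz
  rw [show x + y + g = (x + g) + y by abel]
  exact Finset.add_mem_add (stab_add hg hx) hy

lemma fs_add_fs (H : AddSubgroup G) : fs H + fs H = fs H := by
  apply add_fs_stab
  intro g hg x
  rw [mem_fs, mem_fs]
  exact ⟨fun hx => H.add_mem hx hg, fun hx => by
    have := H.sub_mem hx hg
    rwa [add_sub_cancel_right] at this⟩

lemma le_stab_add_fs (X : Finset G) (H : AddSubgroup G) : H ≤ stab (X + fs H) := by
  intro g hg
  refine mem_stab_of_forall fun z hz => ?_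
  obtain ⟨x, hx, y, hy, rfl⟩ := Finset.mem_add.mp hz
  rw [add_assoc]
  exact Finset.add_mem_add hx (mem_fs.mpr (H.add_mem (mem_fs.mp hy) hg))

/-- Kneser's inequality for iterated sumsets. -/
lemma kneser_it {B : Finset G} (hB : B.Nonempty) {s : ℕ} (hs : 1 ≤ s) :
    s * (B + fs (stab (it B s))).card ≤ (it B s).card + (s - 1) * (fs (stab (it B s))).card := by
  set H := stab (it B s) with hH
  have key : ∀ j, 1 ≤ j → j ≤ s →
      j * (B + fs H).card ≤ (it B j + fs H).card + (j - 1) * (fs H).card := by
    intro j hj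
    induction j, hj using Nat.le_induction with
    | base => intro _; rw [it_one]; omega
    | succ j hj ih =>
      intro hjs
      have ih' := ih (by omega)
      have hk := kneser (it B j + fs H) (B + fs H) ((it_nonempty hB j).add (fs_nonempty H))
        (hB.add (fs_nonempty H))
      have e : it B j + fs H + (B + fs H) = it B (j + 1) + fs H := by
        rw [add_add_add_comm, fs_add_fs, it]
      rw [e] at hk
      have hle : stab (it B (j + 1) + fs H) ≤ H := by
        have h1 := stab_le_stab_add (it B (j + 1) + fs H) (it B (s - (j + 1)))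
        have h2 : it B (j + 1) + fs H + it B (s - (j + 1)) = it B s := by
          rw [add_right_comm, ← it_add, show j + 1 + (s - (j + 1)) = s by omega]
          exact add_fs_stab _ _ le_rfl
        rwa [h2] at h1
      have hc := Finset.card_le_card (fs_mono hle)
      have e2 : (j + 1 - 1) * (fs H).card = (j - 1) * (fs H).card + (fs H).card := by
        obtain ⟨i, rfl⟩ : ∃ i, j = i + 1 := ⟨j - 1, by omega⟩
        simp only [Nat.add_sub_cancel]
        ring
      rw [e2, add_mul, one_mul]
      omega
  have := key s hs le_rfl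
  rwa [add_fs_stab (it B s) H le_rfl] at this

/-- A periodic finite set is a union of cosets. -/
lemma card_fs_dvd {C : Finset G} {H : AddSubgroup G} (hH : H ≤ stab C) :
    (fs H).card ∣ C.card := by
  classical
  let q : G → G ⧸ H := fun x => (x : G ⧸ H)
  have h1 : C.card = ∑ y ∈ C.image q, (C.filter fun x => q x = y).card :=
    Finset.card_eq_sum_card_image q C
  rw [h1]
  refine Finset.dvd_sum fun y hy => ?_
  obtain ⟨x0, hx0, rfl⟩ := Finset.mem_image.mp hy
  have h2 : (C.filter fun x => q x = q x0) = (fs H).image (fun g => x0 + g) := by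
    ext x
    simp only [Finset.mem_filter, Finset.mem_image, mem_fs]
    constructor
    · rintro ⟨_, hx⟩
      refine ⟨-x0 + x, ?_, by abel⟩
      exact (QuotientAddGroup.eq.mp hx.symm)
    · rintro ⟨g, hg, rfl⟩
      exact ⟨stab_add (hH hg) hx0, (QuotientAddGroup.eq.mpr (by simpa using hg)).symm⟩
  rw [h2, Finset.card_image_of_injective _ (add_right_injective x0)]

end general

section cyclic

variable {n : ℕ} [NeZero n]

/-- `A ∪ (-A) ∪ {0}` -/
def symm (A : Finset (ZMod n)) : Finset (ZMod n) := insert 0 (A ∪ A.image (fun x => -x))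

lemma mem_symm {A : Finset (ZMod n)} {x : ZMod n} :
    x ∈ symm A ↔ x = 0 ∨ x ∈ A ∨ -x ∈ A := by
  unfold symm
  simp only [Finset.mem_insert, Finset.mem_union, Finset.mem_image]
  constructor
  · rintro (h | h | ⟨y, hy, rfl⟩)
    · exact Or.inl h
    · exact Or.inr (Or.inl h)
    · exact Or.inr (Or.inr (by rwa [neg_neg]))
  · rintro (h | h | h)
    · exact Or.inl h
    · exact Or.inr (Or.inl h)
    · exact Or.inr (Or.inr ⟨-x, h, neg_neg x⟩)

lemma mem_signedInterval {s : ℕ} {A : Finset (ZMod n)} {x : ZMod n} :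
    x ∈ signedInterval s A ↔ ∃ l : ZMod n → ℤ, ∑ a ∈ A, |l a| ≤ (s : ℤ) ∧ ∑ a ∈ A, l a • a = x := by
  unfold signedInterval signedSumset
  simp only [Set.mem_iUnion, Set.mem_Icc, Set.mem_ofPred_eq, exists_prop]
  constructor
  · rintro ⟨h, ⟨_, hh⟩, l, hl, hx⟩
    exact ⟨l, by rw [hl]; exact_mod_cast hh, hx⟩
  · rintro ⟨l, hl, hx⟩
    have h0 : (0 : ℤ) ≤ ∑ a ∈ A, |l a| := Finset.sum_nonneg fun a _ => abs_nonneg _
    refine ⟨(∑ a ∈ A, |l a|).toNat, ⟨Nat.zero_le _, by omega⟩, l, ?_, hx⟩
    rw [Int.toNat_of_nonneg h0]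

lemma it_symm_subset (A : Finset (ZMod n)) (s : ℕ) {x : ZMod n} (hx : x ∈ it (symm A) s) :
    x ∈ signedInterval s A := by
  induction s generalizing x with
  | zero =>
    rw [it, Finset.mem_singleton] at hx
    rw [mem_signedInterval]
    exact ⟨fun _ => 0, by simp, by simp [hx]⟩
  | succ s ih =>
    rw [it] at hx
    obtain ⟨y, hy, b, hb, rfl⟩ := Finset.mem_add.mp hx
    obtain ⟨l, hl, hly⟩ := mem_signedInterval.mp (ih hy)
    rw [mem_signedInterval]
    have upd : ∀ a0 ∈ A, ∀ e : ℤ, |e| ≤ 1 → ∃ l' : ZMod n → ℤ,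
        ∑ a ∈ A, |l' a| ≤ ((s + 1 : ℕ) : ℤ) ∧ ∑ a ∈ A, l' a • a = y + e • a0 := by
      intro a0 ha0 e he
      refine ⟨fun a => l a + (if a = a0 then e else 0), ?_, ?_⟩
      · have h1 : ∑ a ∈ A, |l a + (if a = a0 then e else 0)| ≤
            ∑ a ∈ A, (|l a| + (if a = a0 then |e| else 0)) := by
          refine Finset.sum_le_sum fun a _ => ?_
          refine (abs_add_le _ _).trans ?_
          split_ifs <;> simp
        refine h1.trans ?_
        rw [Finset.sum_add_distrib, Finset.sum_ite_eq' A a0, if_pos ha0]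
        push_cast
        omega
      · simp only [add_smul, Finset.sum_add_distrib, ite_smul, zero_smul]
        rw [Finset.sum_ite_eq' A a0, if_pos ha0, hly]
    rcases mem_symm.mp hb with h | h | h
    · refine ⟨l, ?_, ?_⟩
      · push_cast; omega
      · rw [hly, h, add_zero]
    · obtain ⟨l', h1, h2⟩ := upd b h 1 (by simp)
      exact ⟨l', h1, by rw [h2, one_smul]⟩
    · obtain ⟨l', h1, h2⟩ := upd (-b) h (-1) (by simp)
      exact ⟨l', h1, by rw [h2]; simp⟩

lemma card_odd_of_symm (hn : Odd n) {C : Finset (ZMod n)} (h0 : (0 : ZMod n) ∈ C)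
    (hC : ∀ x ∈ C, -x ∈ C) : Odd C.card := by
  have h1 : ((C.erase 0).card : ZMod 2) = 0 := by
    have : ∑ x ∈ C.erase 0, (1 : ZMod 2) = 0 := by
      refine Finset.sum_involution (fun x _ => -x) ?_ ?_ ?_ ?_
      · intro a _
        decide
      · intro a ha _ h
        have hne := (Finset.mem_erase.mp ha).1
        have h3 : a = -a := h.symm
        rcases (ZMod.neg_eq_self_iff a).mp h with h4 | h4
        · exact hne h4
        · obtain ⟨k, hk⟩ := hn
          omega
      · intro a ha
        obtain ⟨h2, h3⟩ := Finset.mem_erase.mp ha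
        exact Finset.mem_erase.mpr ⟨neg_ne_zero.mpr h2, hC a h3⟩
      · intro a _
        exact neg_neg a
    simpa using this
  have h2 : Even (C.erase 0).card := (ZMod.natCast_eq_zero_iff_even).mp h1
  have h3 := Finset.card_erase_add_one h0
  rw [← h3]
  exact h2.add_one

lemma le_vpm (s d : ℕ) (hn : 0 < n) (hd : d ∣ n) :
    (2 * (((d : ℤ) - 2) / (2 * (s : ℤ))) + 1) * ((n / d : ℕ) : ℤ) ≤ vpm n s hn :=
  Finset.le_sup' (fun d : ℕ => (2 * (((d : ℤ) - 2) / (2 * (s : ℤ))) + 1) * ((n / d : ℕ) : ℤ))
    (Nat.mem_divisors.mpr ⟨hd, hn.ne'⟩)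

/-- The upper bound. -/
lemma upper (hn : 0 < n) {s : ℕ} (hs : 0 < s) (A : Finset (ZMod n))
    (hA : signedInterval s A ≠ Set.univ) : (A.card : ℤ) ≤ vpm n s hn := by
  classical
  set B := symm A with hB
  have hAB : A ⊆ B := fun x hx => mem_symm.mpr (Or.inr (Or.inl hx))
  have h0B : (0 : ZMod n) ∈ B := mem_symm.mpr (Or.inl rfl)
  have hBne : B.Nonempty := ⟨0, h0B⟩
  have hBsymm : ∀ x ∈ B, -x ∈ B := by
    intro x hx
    rcases mem_symm.mp hx with h | h | h
    · exact mem_symm.mpr (Or.inl (by rw [h, neg_zero]))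
    · exact mem_symm.mpr (Or.inr (Or.inr (by rwa [neg_neg])))
    · exact mem_symm.mpr (Or.inr (Or.inl h))
  have hne : it B s ≠ Finset.univ := by
    intro h
    apply hA
    rw [Set.eq_univ_iff_forall]
    intro x
    exact it_symm_subset A s (by rw [← hB, h]; exact Finset.mem_univ x)
  have hcardB : (A.card : ℤ) ≤ B.card := by exact_mod_cast Finset.card_le_card hAB
  refine hcardB.trans ?_
  set H := stab (it B s) with hH
  set C := B + fs H with hC
  have hBC : B ⊆ C := by
    intro x hx
    have := Finset.add_mem_add hx (mem_fs.mpr H.zero_mem)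
    rwa [add_zero] at this
  have hp : 0 < (fs H).card := fs_card_pos H
  have hk := kneser_it hBne (s := s) hs
  rw [← hH, ← hC] at hk
  obtain ⟨c, hc⟩ := card_fs_dvd (le_stab_add_fs B H)
  rw [← hC] at hc
  obtain ⟨e, he⟩ := card_fs_dvd (C := it B s) (H := H) le_rfl
  have huniv : H ≤ stab (Finset.univ : Finset (ZMod n)) := fun g _ => by
    rw [mem_stab]; simp
  obtain ⟨d, hd⟩ := card_fs_dvd huniv
  rw [Finset.card_univ, ZMod.card] at hd
  have hdn : d ∣ n := Dvd.intro_left _ hd.symm
  have hd0 : 0 < d := Nat.pos_of_dvd_of_pos hdn hn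
  have hnd : n / d = (fs H).card := Nat.div_eq_of_eq_mul_left hd0 hd
  have hed : e < d := by
    have h1 : (it B s).card < n := by
      have h0 := Finset.card_lt_card (Finset.ssubset_univ_iff.mpr hne)
      rwa [Finset.card_univ, ZMod.card] at h0
    rw [he] at h1
    exact lt_of_mul_lt_mul_left (h1.trans_eq hd) (Nat.zero_le _)
  have hsc : s * c ≤ e + (s - 1) := by
    have h1 : (fs H).card * (s * c) ≤ (fs H).card * (e + (s - 1)) := by
      calc (fs H).card * (s * c) = s * C.card := by rw [hc]; ring
        _ ≤ (it B s).card + (s - 1) * (fs H).card := hk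
        _ = (fs H).card * (e + (s - 1)) := by rw [he]; ring
    exact le_of_mul_le_mul_left h1 hp
  have hcpos : 0 < c := by
    rcases Nat.eq_zero_or_pos c with h | h
    · rw [h, mul_zero] at hc
      exact absurd hc (Finset.card_pos.mpr (hBne.mono hBC)).ne'
    · exact h
  rcases Nat.even_or_odd n with hev | hodd
  · -- even order
    obtain ⟨m, hm⟩ := hev
    rcases Nat.lt_or_ge 1 s with hs2 | hs1
    · -- s ≥ 2: a set with more than n / 2 elements has sumset everything
      have hBm : B.card ≤ m := by
        by_contra hcon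
        push Not at hcon
        apply hne
        rw [Finset.eq_univ_iff_forall]
        intro x
        have h2 : ∀ y : ZMod n, y ∈ B + B := by
          intro y
          by_contra hy
          have hdisj : Disjoint B (B.image fun b => y - b) := by
            rw [Finset.disjoint_left]
            intro z hz hz'
            obtain ⟨b, hb, rfl⟩ := Finset.mem_image.mp hz'
            exact hy (Finset.mem_add.mpr ⟨y - b, hz, b, hb, by abel⟩)
          have h3 := Finset.card_union_of_disjoint hdisj
          rw [Finset.card_image_of_injective _ (sub_right_injective)] at h3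
          have h4 := Finset.card_le_univ (B ∪ B.image fun b => y - b)
          rw [ZMod.card, h3] at h4
          omega
        have h3 : it B s = (B + B) + it B (s - 2) := by
          have : it B 2 = B + B := by
            rw [show (2 : ℕ) = 1 + 1 from rfl, it_add, it_one]
          rw [← this, ← it_add, show 2 + (s - 2) = s by omega]
        rw [h3]
        obtain ⟨z, hz⟩ := it_nonempty hBne (s - 2)
        exact Finset.mem_add.mpr ⟨x - z, h2 _, z, hz, by abel⟩
      have hv := le_vpm (n := n) s 2 hn ⟨m, by omega⟩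
      have h2 : n / 2 = m := by omega
      rw [h2] at hv
      simp only [Nat.cast_ofNat, sub_self, Int.zero_ediv, mul_zero, zero_add, one_mul] at hv
      refine le_trans ?_ hv
      exact_mod_cast hBm
    · -- s = 1
      have hs' : s = 1 := by omega
      have hBlt : B.card ≤ n - 1 := by
        have h1 : B ≠ Finset.univ := by
          intro h
          apply hne
          rw [hs', it_one, h]
        have h2 := Finset.card_lt_card (Finset.ssubset_univ_iff.mpr h1)
        rw [Finset.card_univ, ZMod.card] at h2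
        omega
      have hv := le_vpm (n := n) s n hn dvd_rfl
      rw [Nat.div_self hn, hs'] at hv
      have h3 : (((n : ℤ) - 2) / (2 * ((1 : ℕ) : ℤ))) = (m : ℤ) - 1 := by
        rw [hm]; push_cast
        omega
      rw [h3] at hv
      rw [hs']
      refine le_trans ?_ hv
      have h4 : (B.card : ℤ) ≤ ((n - 1 : ℕ) : ℤ) := by exact_mod_cast hBlt
      have h5 : ((n - 1 : ℕ) : ℤ) = 2 * (m : ℤ) - 1 := by omega
      rw [h5] at h4
      push_cast
      linarith
  · -- odd order
    have hCodd : Odd C.card := by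
      refine card_odd_of_symm hodd (hBC h0B) fun x hx => ?_
      obtain ⟨b, hb, g, hg, rfl⟩ := Finset.mem_add.mp hx
      rw [neg_add]
      exact Finset.add_mem_add (hBsymm b hb) (mem_fs.mpr (H.neg_mem (mem_fs.mp hg)))
    have hcodd : Odd c := by
      rw [hc] at hCodd
      exact (Nat.odd_mul.mp hCodd).2
    obtain ⟨t, ht⟩ := hcodd
    have hle : 2 * s * t + 2 ≤ d := by
      have h1 : s * c = 2 * s * t + s := by rw [ht]; ring
      omega
    have ht2 : (t : ℤ) ≤ ((d : ℤ) - 2) / (2 * (s : ℤ)) := by
      rw [Int.le_ediv_iff_mul_le (by positivity)]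
      have : ((2 * s * t + 2 : ℕ) : ℤ) ≤ (d : ℤ) := by exact_mod_cast hle
      push_cast at this
      linarith
    refine le_trans ?_ (le_vpm s d hn hdn)
    have h1 : (B.card : ℤ) ≤ (C.card : ℤ) := by exact_mod_cast Finset.card_le_card hBC
    refine h1.trans ?_
    rw [hc, hnd, ht]
    push_cast
    have hp' : (0 : ℤ) ≤ ((fs H).card : ℤ) := by positivity
    nlinarith

/-- The set of the residues mod `n` which are congruent mod `d` to an integer in `[-t, t]`. -/
lemma lower_aux (hn : 0 < n) {d : ℕ} (hd : d ∣ n) {s t : ℕ} (h : 2 * s * t + 2 ≤ d) (hs : 0 < s) :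
    ∃ A : Finset (ZMod n), A.card = (2 * t + 1) * (n / d) ∧ signedInterval s A ≠ Set.univ := by
  classical
  have hd0 : 0 < d := Nat.pos_of_dvd_of_pos hd hn
  have : NeZero d := ⟨hd0.ne'⟩
  have hst : t ≤ s * t := Nat.le_mul_of_pos_left t hs
  let f : ZMod n →+* ZMod d := ZMod.castHom hd (ZMod d)
  have hf : Function.Surjective f := ZMod.castHom_surjective hd
  let S : Finset (ZMod d) := (Finset.Icc (-(t : ℤ)) t).image (fun j : ℤ => (j : ZMod d))
  have hS : S.card = 2 * t + 1 := by
    rw [Finset.card_image_of_injOn, Int.card_Icc]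
    · omega
    · intro a ha b hb hab
      rw [Finset.coe_Icc, Set.mem_Icc] at ha hb
      have h1 := (ZMod.intCast_eq_intCast_iff_dvd_sub a b d).mp hab
      have h2 : |b - a| < (d : ℤ) := by
        rw [abs_lt]
        have h3 : ((2 * (s * t) + 2 : ℕ) : ℤ) ≤ (d : ℤ) := by exact_mod_cast (by linarith)
        have h4 : (t : ℤ) ≤ ((s * t : ℕ) : ℤ) := by exact_mod_cast hst
        push_cast at h3 h4
        constructor <;> linarith [ha.1, ha.2, hb.1, hb.2]
      have h3 := Int.eq_zero_of_abs_lt_dvd h1 h2
      linarith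
  have hfib : ∀ y : ZMod d, (Finset.univ.filter fun x : ZMod n => f x = y).card = n / d := by
    have hconst : ∀ y y' : ZMod d, (Finset.univ.filter fun x : ZMod n => f x = y).card =
        (Finset.univ.filter fun x : ZMod n => f x = y').card := by
      intro y y'
      obtain ⟨z, hz⟩ := hf (y' - y)
      refine Finset.card_bij (fun x _ => x + z) ?_ ?_ ?_
      · intro x hx
        rw [Finset.mem_filter] at hx ⊢
        exact ⟨Finset.mem_univ _, by rw [map_add, hx.2, hz]; abel⟩
      · intro a _ b _ hab
        exact add_right_cancel hab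
      · intro x hx
        rw [Finset.mem_filter] at hx
        exact ⟨x - z, by rw [Finset.mem_filter]; exact ⟨Finset.mem_univ _, by
          rw [map_sub, hx.2, hz]; abel⟩, by abel⟩
    intro y
    have h1 : (Finset.univ : Finset (ZMod n)).card =
        ∑ y' ∈ (Finset.univ : Finset (ZMod d)), (Finset.univ.filter fun x : ZMod n => f x = y').card :=
      Finset.card_eq_sum_card_fiberwise fun x _ => Finset.mem_coe.mpr (Finset.mem_univ (f x))
    rw [Finset.sum_congr rfl fun y' _ => hconst y' y, Finset.sum_const, Finset.card_univ,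
      Finset.card_univ, ZMod.card, ZMod.card, smul_eq_mul] at h1
    exact (Nat.div_eq_of_eq_mul_right hd0 h1).symm
  refine ⟨Finset.univ.filter fun x : ZMod n => f x ∈ S, ?_, ?_⟩
  · have h1 : (Finset.univ.filter fun x : ZMod n => f x ∈ S).card =
        ∑ y ∈ S, ((Finset.univ.filter fun x : ZMod n => f x ∈ S).filter fun x => f x = y).card :=
      Finset.card_eq_sum_card_fiberwise fun x hx => (Finset.mem_filter.mp hx).2
    rw [h1, ← hS]
    have h2 : ∀ y ∈ S, ((Finset.univ.filter fun x : ZMod n => f x ∈ S).filter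
        fun x => f x = y).card = n / d := by
      intro y hy
      rw [← hfib y]
      congr 1
      ext x
      simp only [Finset.mem_filter, Finset.mem_univ, true_and]
      constructor
      · exact fun h => h.2
      · exact fun h => ⟨by rw [h]; exact hy, h⟩
    rw [Finset.sum_congr rfl h2, Finset.sum_const, smul_eq_mul]
  · intro hcon
    have hall : ∀ y : ZMod d, ∃ j : ℤ, |j| ≤ ((s * t : ℕ) : ℤ) ∧ (j : ZMod d) = y := by
      intro y
      obtain ⟨x, rfl⟩ := hf y
      have hx : x ∈ signedInterval s (Finset.univ.filter fun x : ZMod n => f x ∈ S) := by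
        rw [hcon]; trivial
      obtain ⟨l, hl, hlx⟩ := mem_signedInterval.mp hx
      have hj : ∀ a : ZMod n, ∃ j : ℤ, |j| ≤ (t : ℤ) ∧ (f a ∈ S → (j : ZMod d) = f a) := by
        intro a
        by_cases ha : f a ∈ S
        · obtain ⟨j, hj, hja⟩ := Finset.mem_image.mp ha
          exact ⟨j, abs_le.mpr (Finset.mem_Icc.mp hj), fun _ => hja⟩
        · exact ⟨0, by simp, fun h => absurd h ha⟩
      choose j hj1 hj2 using hj
      refine ⟨∑ a ∈ Finset.univ.filter (fun x : ZMod n => f x ∈ S), l a * j a, ?_, ?_⟩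
      · refine (Finset.abs_sum_le_sum_abs _ _).trans ?_
        calc ∑ a ∈ Finset.univ.filter (fun x : ZMod n => f x ∈ S), |l a * j a|
            ≤ ∑ a ∈ Finset.univ.filter (fun x : ZMod n => f x ∈ S), |l a| * (t : ℤ) := by
              refine Finset.sum_le_sum fun a _ => ?_
              rw [abs_mul]
              exact mul_le_mul_of_nonneg_left (hj1 a) (abs_nonneg _)
          _ = (∑ a ∈ Finset.univ.filter (fun x : ZMod n => f x ∈ S), |l a|) * (t : ℤ) := by
              rw [Finset.sum_mul]
          _ ≤ (s : ℤ) * (t : ℤ) := mul_le_mul_of_nonneg_right hl (by positivity)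
          _ = ((s * t : ℕ) : ℤ) := by push_cast; ring
      · rw [← hlx, map_sum, Int.cast_sum]
        refine Finset.sum_congr rfl fun a ha => ?_
        rw [map_zsmul, ← hj2 a (Finset.mem_filter.mp ha).2, Int.cast_mul, zsmul_eq_mul]
    have h1 : (Finset.univ : Finset (ZMod d)) ⊆
        (Finset.Icc (-((s * t : ℕ) : ℤ)) ((s * t : ℕ) : ℤ)).image (fun j : ℤ => (j : ZMod d)) := by
      intro y _
      obtain ⟨j, hj, hjy⟩ := hall y
      exact Finset.mem_image.mpr ⟨j, Finset.mem_Icc.mpr (abs_le.mp hj), hjy⟩
    have h2 := (Finset.card_le_card h1).trans Finset.card_image_le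
    rw [Finset.card_univ, ZMod.card, Int.card_Icc] at h2
    have h3 : 2 * (s * t) + 2 ≤ d := by linarith
    omega

/-- The lower bound. -/
lemma lower (hn : 0 < n) {s : ℕ} (hs : 0 < s) {m : ℕ} (hm : (m : ℤ) ≤ vpm n s hn) :
    ∃ A : Finset (ZMod n), m ≤ A.card ∧ signedInterval s A ≠ Set.univ := by
  obtain ⟨d, hd, hmax⟩ := Finset.exists_mem_eq_sup' (s := n.divisors)
    ⟨1, Nat.one_mem_divisors.mpr hn.ne'⟩
    (fun d : ℕ => (2 * (((d : ℤ) - 2) / (2 * (s : ℤ))) + 1) * ((n / d : ℕ) : ℤ))
  have hdn : d ∣ n := (Nat.mem_divisors.mp hd).1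
  have hd0 : 0 < d := Nat.pos_of_dvd_of_pos hdn hn
  have hv : (m : ℤ) ≤ (2 * (((d : ℤ) - 2) / (2 * (s : ℤ))) + 1) * ((n / d : ℕ) : ℤ) := by
    rw [← hmax]; exact hm
  have hq : 0 < n / d := Nat.div_pos (Nat.le_of_dvd hn hdn) hd0
  have hq' : (0 : ℤ) < ((n / d : ℕ) : ℤ) := by exact_mod_cast hq
  have hfl : 0 ≤ (((d : ℤ) - 2) / (2 * (s : ℤ))) := by
    by_contra hcon
    push Not at hcon
    have h1 : (2 * (((d : ℤ) - 2) / (2 * (s : ℤ))) + 1) < 0 := by omega
    have h2 := mul_neg_of_neg_of_pos h1 hq'
    have h3 : (0 : ℤ) ≤ (m : ℤ) := by positivity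
    linarith
  obtain ⟨t, ht⟩ := Int.eq_ofNat_of_zero_le hfl
  have h2 : (t : ℤ) * (2 * (s : ℤ)) ≤ (d : ℤ) - 2 := by
    rw [← Int.le_ediv_iff_mul_le (by positivity)]
    exact ht.ge
  have h3 : 2 * s * t + 2 ≤ d := by
    have : ((2 * s * t + 2 : ℕ) : ℤ) ≤ (d : ℤ) := by push_cast; linarith
    exact_mod_cast this
  obtain ⟨A, hA, hne⟩ := lower_aux hn hdn h3 hs
  refine ⟨A, ?_, hne⟩
  rw [hA]
  rw [ht] at hv
  exact_mod_cast hv

end cyclic

/-- **The signed `[0,s]`-critical number of the cyclic group of order `n` is `v_± (n, s) + 1`** for all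
positive integers `n` and `s`. The second part: the set of the `m` in the definition of the critical
number is not empty, so that the critical number is its least element. -/
theorem result (n s : ℕ) (hn : 0 < n) (hs : 0 < s) :
    (criticalNumber n s : ℤ) = vpm n s hn + 1 ∧
      (∀ m : ℕ, (∀ A : Finset (ZMod n), m ≤ A.card → signedInterval s A = Set.univ) ↔
        criticalNumber n s ≤ m) := by
  classical
  have : NeZero n := ⟨hn.ne'⟩
  have key : ∀ m : ℕ, (∀ A : Finset (ZMod n), m ≤ A.card → signedInterval s A = Set.univ) ↔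
      vpm n s hn + 1 ≤ (m : ℤ) := by
    intro m
    constructor
    · intro h
      by_contra hcon
      push Not at hcon
      obtain ⟨A, hA, hne⟩ := lower hn hs (m := m) (by linarith)
      exact hne (h A hA)
    · intro h A hA
      by_contra hne
      have h1 := upper hn hs A hne
      have h2 : (m : ℤ) ≤ (A.card : ℤ) := by exact_mod_cast hA
      linarith
  have hnn : 0 ≤ vpm n s hn + 1 := by
    by_contra hcon
    push Not at hcon
    -- with one more element: the divisor `n` itself gives a value at least `-1`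
    have h1 := le_vpm (n := n) s n hn dvd_rfl
    rw [Nat.div_self hn] at h1
    have h2 : (-1 : ℤ) ≤ ((n : ℤ) - 2) / (2 * (s : ℤ)) := by
      rw [Int.le_ediv_iff_mul_le (by positivity)]
      have h3 : (1 : ℤ) ≤ (n : ℤ) := by exact_mod_cast hn
      have h4 : (1 : ℤ) ≤ (s : ℤ) := by exact_mod_cast hs
      linarith
    push_cast at h1
    omega
  have hset : {m : ℕ | ∀ A : Finset (ZMod n), m ≤ A.card → signedInterval s A = Set.univ} =
      Set.Ici (vpm n s hn + 1).toNat := by
    ext m
    rw [Set.mem_Ici]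
    exact (key m).trans (by omega)
  have hcrit : criticalNumber n s = (vpm n s hn + 1).toNat := by
    unfold criticalNumber
    rw [hset, csInf_Ici]
  refine ⟨?_, ?_⟩
  · rw [hcrit, Int.toNat_of_nonneg hnn]
  · intro m
    rw [key m, hcrit]
    omega

end Pool.Agent.Results.MP_c7e63d_co.SignedCritical
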